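import Mathlib
import Pool.Agent.H27.Dd

set_option autoImplicit false

namespace Pool.Agent.Results.MP_914893_an.Duality

open Filter Topology Set Pool.Agent.H27.Dd

/-- The closed unit ball of `X` with the relative weak topology. -/
abbrev WeakBall (X : Type) [NormedAddCommGroup X] [NormedSpace ℝ X] : Type :=
  {x : WeakSpace ℝ X // ‖(toWeakSpace ℝ X).symm x‖ ≤ 1}

/-- The closed unit ball of the dual with the relative weak-star topology. -/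
abbrev WeakStarBall (X : Type) [NormedAddCommGroup X] [NormedSpace ℝ X] : Type :=
  {f : WeakDual ℝ X // ‖WeakDual.toStrongDual f‖ ≤ 1}

/-- The diametral diameter two property. -/
def DD2P (X : Type) [NormedAddCommGroup X] [NormedSpace ℝ X] : Prop :=
  ∀ W : Set (WeakBall X), IsOpen W → ∀ x ∈ W, ‖(toWeakSpace ℝ X).symm x.1‖ = 1 → ∀ ε : ℝ, 0 < ε →
    ∃ y ∈ W, 2 - ε < ‖(toWeakSpace ℝ X).symm x.1 - (toWeakSpace ℝ X).symm y.1‖

/-- The weak-star diametral diameter two property of the dual of `X`. -/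
def WStarDD2P (X : Type) [NormedAddCommGroup X] [NormedSpace ℝ X] : Prop :=
  ∀ W : Set (WeakStarBall X), IsOpen W → ∀ f ∈ W, ‖WeakDual.toStrongDual f.1‖ = 1 →
    ∀ ε : ℝ, 0 < ε → ∃ g ∈ W, 2 - ε < ‖WeakDual.toStrongDual f.1 - WeakDual.toStrongDual g.1‖

theorem dual {E F : Type} [NormedAddCommGroup E] [NormedSpace ℝ E] [NormedAddCommGroup F]
    [NormedSpace ℝ F] {J : F →ₗ[ℝ] E →L[ℝ] ℝ} {J' : E →ₗ[ℝ] F →L[ℝ] ℝ}
    (e : ∀ x φ, J' x φ = J φ x) (b : ∀ φ x, |J φ x| ≤ ‖φ‖ * ‖x‖)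
    (n1 : ∀ x τ, 0 < τ → ∃ φ, ‖φ‖ ≤ 1 ∧ ‖x‖ - τ < J φ x)
    (n2 : ∀ φ τ, 0 < τ → ∃ x, ‖x‖ ≤ 1 ∧ ‖φ‖ - τ < J φ x) (h : L J) : L J' := by
  intro z f hf τ hτ
  obtain ⟨t, t0, t1, t2⟩ : ∃ t : ℝ, 0 < t ∧ t * ‖z‖ ≤ 1 / 4 ∧ t * ‖z‖ ≤ τ / 4 := by
    have : Tendsto (fun t : ℝ => t * ‖z‖) (𝓝[>] 0) (𝓝 (0 * ‖z‖)) :=
      (tendsto_id.mul_const _).mono_left nhdsWithin_le_nhds
    rw [zero_mul] at this
    exact (eventually_mem_nhdsWithin.and ((this.eventually_le_const (by norm_num)).and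
      (this.eventually_le_const (by positivity)))).exists
  obtain ⟨σ, s0, s1, s2, s3⟩ : ∃ σ : ℝ, 0 < σ ∧ σ ≤ 1 / 4 ∧ 8 * σ ≤ τ ∧ 6 * σ ≤ t * τ :=
    ⟨min (1 / 4) (min (τ / 8) (t * τ / 6)), by positivity, min_le_left _ _,
      by linarith [(min_le_right (1 / 4) _).trans (min_le_left (τ / 8) (t * τ / 6))],
      by linarith [(min_le_right (1 / 4) _).trans (min_le_right (τ / 8) (t * τ / 6))]⟩
  have b1 : ∀ φ x, ‖φ‖ ≤ 1 → |J φ x| ≤ ‖x‖ := fun φ x h =>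
    (b φ x).trans (mul_le_of_le_one_left (norm_nonneg _) h)
  obtain ⟨a, a1, a2⟩ := n2 f σ s0
  set N := ‖a + t • z‖ with hN
  have c1 : J f a + t * J f z ≤ N := by
    simpa using (le_abs_self _).trans (b1 f (a + t • z) hf.le)
  have c2 : -(t * ‖z‖) ≤ t * J f z := by
    linarith [mul_le_mul_of_nonneg_left (abs_le.1 (b1 f z hf.le)).1 t0.le]
  have c3 : N ≤ 1 + t * ‖z‖ := (norm_add_le _ _).trans (by
    rw [norm_smul, Real.norm_of_nonneg t0.le]; linarith)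
  have N0 : 0 < N := by linarith
  have u1 : ‖N⁻¹ • (a + t • z)‖ = 1 := by
    rw [norm_smul, Real.norm_of_nonneg (inv_pos.2 N0).le, inv_mul_cancel₀ N0.ne']
  have c4 : ∀ φ, N * J φ (N⁻¹ • (a + t • z)) = J φ a + t * J φ z := fun φ => by
    rw [map_smul, smul_eq_mul, ← mul_assoc, mul_inv_cancel₀ N0.ne', one_mul]; simp
  obtain ⟨y, y1, y2, y3⟩ := h f _ u1 σ s0
  obtain ⟨g, g1, g2⟩ := n1 (N⁻¹ • (a + t • z) - y) σ s0
  rw [map_sub] at g2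
  have d1 := abs_le.1 ((b1 g y g1).trans y1)
  have d2 := abs_le.1 ((b1 g _ g1).trans u1.le)
  have d3 := abs_le.1 ((b1 g a g1).trans a1)
  refine ⟨g, g1, ?_, ?_⟩
  · rw [e, e]
    have : N * (1 - 2 * σ) ≤ N * J g (N⁻¹ • (a + t • z)) :=
      mul_le_mul_of_nonneg_left (by linarith) N0.le
    rw [c4] at this
    refine lt_of_mul_lt_mul_left ?_ t0.le
    nlinarith
  · have d4 := (le_abs_self _).trans (b (f - g) y)
    rw [map_sub, ContinuousLinearMap.sub_apply] at d4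
    have d5 : 1 - σ - 2 * (t * ‖z‖) ≤ J f (N⁻¹ • (a + t • z)) := by
      refine le_of_mul_le_mul_left ?_ N0
      rw [c4]
      nlinarith [mul_nonneg t0.le (norm_nonneg z)]
    nlinarith [norm_nonneg (f - g)]

theorem pi_nhds {ι : Type} {W : Set (ι → ℝ)} (hW : IsOpen W) {a : ι → ℝ} (ha : a ∈ W) :
    ∃ (I : Finset ι) (δ : ℝ), 0 < δ ∧ ∀ b : ι → ℝ, (∀ i ∈ I, |b i - a i| < δ) → b ∈ W := by
  obtain ⟨I, u, hu, hI⟩ := isOpen_pi_iff.1 hW _ ha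
  have h1 : ∀ᶠ ε : ℝ in 𝓝[>] 0, ∀ f ∈ I, Metric.ball (a f) ε ⊆ u f := by
    rw [eventually_all_finset]
    intro f hf
    obtain ⟨δ, hδ, h⟩ := Metric.isOpen_iff.1 (hu f hf).1 _ (hu f hf).2
    filter_upwards [Ioo_mem_nhdsGT hδ] with ε hε
    exact (Metric.ball_subset_ball hε.2.le).trans h
  obtain ⟨ε, h2, h3⟩ := (h1.and self_mem_nhdsWithin).exists
  exact ⟨I, ε, h3, fun x hx => hI fun f hf => h2 f hf (hx f hf)⟩

/-- `X` has the DD2P if and only if its dual has the weak-star DD2P. -/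
theorem result (X : Type) [NormedAddCommGroup X] [NormedSpace ℝ X] [CompleteSpace X] :
    DD2P X ↔ WStarDD2P X := by
  let J : (X →L[ℝ] ℝ) →ₗ[ℝ] X →L[ℝ] ℝ := LinearMap.id
  let J' : X →ₗ[ℝ] (X →L[ℝ] ℝ) →L[ℝ] ℝ := NormedSpace.inclusionInDoubleDual ℝ X
  have b : ∀ (φ : X →L[ℝ] ℝ) x, |φ x| ≤ ‖φ‖ * ‖x‖ := fun φ x => φ.le_opNorm x
  have n1 : ∀ (x : X) (τ : ℝ), 0 < τ → ∃ φ : X →L[ℝ] ℝ, ‖φ‖ ≤ 1 ∧ ‖x‖ - τ < φ x := fun x τ h => by
    obtain ⟨g, g1, g2⟩ := exists_dual_vector'' ℝ x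
    exact ⟨g, g1, by rw [g2]; simpa using h⟩
  have n2 : ∀ (φ : X →L[ℝ] ℝ) (τ : ℝ), 0 < τ → ∃ x, ‖x‖ ≤ 1 ∧ ‖φ‖ - τ < φ x := fun φ τ h => by
    obtain ⟨w, w1, w2⟩ := φ.exists_lt_apply_of_lt_opNorm (r := ‖φ‖ - τ) (by linarith)
    rcases lt_abs.1 w2 with h | h
    · exact ⟨w, w1.le, h⟩
    · exact ⟨-w, by rw [norm_neg]; exact w1.le, by rwa [map_neg]⟩
  refine ⟨fun h W hW f hf f1 ε hε => ?_, fun h W hW x hx x1 ε hε => ?_⟩
  · have l1 : L J := fun φ x hx τ hτ => by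
      obtain ⟨y, y1, y2⟩ := h {y | φ x - τ < φ ((toWeakSpace ℝ X).symm y.1)}
        (isOpen_lt continuous_const ((WeakBilin.eval_continuous (topDualPairing ℝ X).flip φ).comp
          continuous_subtype_val)) ⟨toWeakSpace ℝ X x, hx.le⟩ (sub_lt_self _ hτ) hx τ hτ
      exact ⟨_, y.2, y1, y2⟩
    obtain ⟨V, hV, rfl⟩ := isOpen_induced_iff.1 hW
    obtain ⟨U, hU, rfl⟩ := isOpen_induced_iff.1 hV
    obtain ⟨I, δ, hδ, hI⟩ := pi_nhds hU hf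
    obtain ⟨g, g1, g2, g3⟩ := dd (dual (J := J) (J' := J') (fun _ _ => rfl) b n1 n2 l1)
      (fun i : I => i.1) hδ f1 hε
    exact ⟨⟨WeakDual.toStrongDual.symm g, g1⟩, hI _ fun i hi => g2 ⟨i, hi⟩, g3⟩
  · have l1 : L J' := fun z f hf τ hτ => by
      obtain ⟨g, g1, g2⟩ := h {g | f z - τ < g.1 z}
        (isOpen_lt continuous_const ((WeakDual.eval_continuous z).comp continuous_subtype_val))
        ⟨WeakDual.toStrongDual.symm f, hf.le⟩ (sub_lt_self _ hτ) hf τ hτ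
      exact ⟨_, g.2, g1, g2⟩
    obtain ⟨V, hV, rfl⟩ := isOpen_induced_iff.1 hW
    obtain ⟨U, hU, rfl⟩ := isOpen_induced_iff.1 hV
    obtain ⟨I, δ, hδ, hI⟩ := pi_nhds hU hx
    obtain ⟨y, y1, y2, y3⟩ := dd (dual (J := J') (J' := J) (fun _ _ => rfl)
      (fun x φ => (b φ x).trans_eq (mul_comm _ _)) n2 n1 l1) (fun i : I => i.1) hδ x1 hε
    exact ⟨⟨toWeakSpace ℝ X y, y1⟩, hI _ fun i hi => by
      have := y2 ⟨i, hi⟩
      rwa [map_sub] at this, y3⟩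

end Pool.Agent.Results.MP_914893_an.Duality
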